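import Pool.Agent.H342.LD.Out

/-!
# Arbitrary derived length: bounds by the numbers of generators of the middle derived factors

Let `S` be a finite symmetric generating set of a solvable group `G`, let `C ⊇ G^(r+1)` be a
nilpotent normal subgroup (for instance `G^(r+1)` if `G^(r+2) = 1`), and suppose that the `r` factors
`G^(i) C / G^(i+1) C`, `1 ≤ i ≤ r`, can be generated by `K` elements.  Then `G` is virtually nilpotent
or the growth rate is at least `η(x) / (4 ^ r (r K + 2) (2 r K + 6))`, where `η(x)` is the growth rate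
of the number of digit sums of `x`.  There is no condition on `C` (it may be of infinite rank), nor
on `G / G'`: the known bounds of this kind need bounds on the ranks, and on the torsion, of all factors
of the derived series from the second or third on, including the last.

Idea of the proof.  By the theorem of Cayley and Hamilton all the conjugates `w c w⁻¹` of `c ∈ G'` by
words `w` in elements of a set `X` are, modulo `C`, in the group generated by those with `w` of length
at most `κ = r K`.  So there are generators of length `O(4 ^ i κ)` of `G^(i)` modulo `C`.  In a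
suitable quotient of a factor of the lower central series of `C`, an extremal part of the group acts
through a group whose derived subgroup is finite; there the argument with commutators
`c_{i+1} = w⁻¹ [c_i, X ^ l c_i X ^ (-l)] w`, with words `w` of length at most `κ`, leads to digit sums
without noise.
-/

set_option autoImplicit false

namespace Pool.Agent.Results.MP_d69e80_al.DerivedFactorGenerators

open Filter Topology Polynomial
open Pool.Agent
open scoped Pointwise commutatorElement

universe u

/-- The exponential growth rate `ρ_S = lim (1/n) log |S ^ n|`, where `S ^ n` is the set of all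
products of `n` elements of `S` (pointwise power of sets). -/
noncomputable def rho {G : Type*} [Group G] (S : Set G) : ℝ :=
  limUnder atTop (fun n : ℕ => Real.log (Nat.card ↥(S ^ n)) / n)

/-- The set of all sums `∑ ε_i x ^ i` over `0 ≤ i < n` with digits `ε_i ∈ {0, 1}`. -/
def digitSums (x : ℂ) (n : ℕ) : Set ℂ :=
  {z | ∃ ε : Fin n → Bool, z = ∑ i : Fin n, if ε i then x ^ (i : ℕ) else 0}

/-- The growth rate `η(x) = lim (1/n) log |digitSums x n|`. -/
noncomputable def eta (x : ℂ) : ℝ :=
  limUnder atTop (fun n : ℕ => Real.log (Nat.card ↥(digitSums x n)) / n)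

/-- The Mahler measure of (the minimal polynomial over `ℤ` of) an algebraic integer. -/
noncomputable def mahler (x : ℂ) : ℝ := ((minpoly ℤ x).map (Int.castRingHom ℂ)).mahlerMeasure

/-- `x` is an algebraic unit and not a root of unity. -/
def UnitNotRoot (x : ℂ) : Prop :=
  x ≠ 0 ∧ IsIntegral ℤ x ∧ IsIntegral ℤ x⁻¹ ∧ ∀ m > 0, x ^ m ≠ 1

/-- The growth gap with constant `c` for metabelian groups (solvability class at most 2). -/
def ClassTwoGap (c : ℝ) : Prop :=
  ∀ (G : Type) [Group G] (S : Set G), S.Finite → Subgroup.closure S = ⊤ →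
    derivedSeries G 2 = ⊥ → Group.IsVirtuallyNilpotent G ∨ c ≤ rho S

/-- `C` is nilpotent, contains `G^(r+1)`, and the factors `G^(i) C / G^(i+1) C`, `1 ≤ i ≤ r`, can be
generated by `K` elements. -/
def Factors {G : Type*} [Group G] (C : Subgroup G) (r K : ℕ) : Prop :=
  Group.IsNilpotent C ∧ derivedSeries G (r + 1) ≤ C ∧
    ∀ i, 1 ≤ i → i ≤ r → ∃ F : Fin K → G,
      Subgroup.closure (Set.range F) ⊔ (derivedSeries G (i + 1) ⊔ C) = derivedSeries G i ⊔ C

/-- The exponent. -/
def L (r K : ℕ) : ℕ := 4 ^ r * ((r * K + 2) * (2 * (r * K) + 6))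

/-- The exponent if `G'` is virtually nilpotent. -/
def L' (r K : ℕ) : ℕ := 4 ^ r * (2 * (r * K) + 6)

/-- The bounds by digit sums and by Mahler measures, with exponent `m`. -/
def Bound {G : Type*} [Group G] (S : Set G) (m : ℕ) : Prop :=
  ((∀ n : ℕ, 2 ^ n ≤ Nat.card ↥(S ^ n) ^ m) ∧ Real.log 2 / m ≤ rho S) ∨
    ∃ x : ℂ, UnitNotRoot x ∧
      (∀ n : ℕ, Nat.card ↥(digitSums x n) ≤ Nat.card ↥(S ^ n) ^ m) ∧
      eta x / m ≤ rho S ∧ min 1 (Real.log (mahler x)) / (8 * m) ≤ rho S

lemma bound_of {G : Type u} [Group G] {S : Set G} {m : ℕ} (hm : 0 < m)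
    (h : H785R3.GrowthA.Dig S m) : Bound S m := by
  rcases H342.LD.out hm h with h1 | ⟨x, h1, h2, h3, h4⟩
  · exact Or.inl h1
  · exact Or.inr ⟨x, h1, h2, h3, h4.trans h3⟩

lemma L_pos (r K : ℕ) : 0 < L r K := by unfold L; positivity

lemma L'_pos (r K : ℕ) : 0 < L' r K := by unfold L'; positivity

/-- (1) Let `S` be a finite symmetric generating set of a group `G` and let `C ⊇ G^(r+1)` be a
nilpotent normal subgroup such that the factors `G^(i) C / G^(i+1) C`, `1 ≤ i ≤ r`, can be generated by
`K` elements.  Then `ρ_S` exists and either `G` is virtually nilpotent, or, for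
`m = L r K = 4 ^ r (r K + 2) (2 r K + 6)`, `|S ^ n| ^ m ≥ 2 ^ n` for all `n` and `ρ_S ≥ log 2 / m`, or
there is an algebraic unit `x`, not a root of unity, with `|S ^ n| ^ m ≥ |digitSums x n|` for all `n`,
`ρ_S ≥ η(x) / m` and `ρ_S ≥ min (1, log M(x)) / (8 m)`.  If `G'` is virtually nilpotent the same holds
for `m = 4 ^ r (2 r K + 6)`.
(2) If `c ≤ log 2` is a gap for all metabelian groups then all such groups `G` (and all finite
symmetric generating sets) have the gap `c / (4 ^ r (r K + 2) (2 r K + 6))`. -/
theorem result :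
    (∀ (G : Type u) [Group G] (S : Set G) (C : Subgroup G) [C.Normal] (r K : ℕ), S.Finite →
      S⁻¹ = S → Subgroup.closure S = ⊤ → Factors C r K →
        Tendsto (fun n : ℕ => Real.log (Nat.card ↥(S ^ n)) / n) atTop (𝓝 (rho S)) ∧
        (Group.IsVirtuallyNilpotent G ∨
          (Bound S (L r K) ∧ (Group.IsVirtuallyNilpotent (commutator G) → Bound S (L' r K))))) ∧
    (∀ c : ℝ, c ≤ Real.log 2 → ClassTwoGap c →
      ∀ (G : Type u) [Group G] (S : Set G) (C : Subgroup G) [C.Normal] (r K : ℕ), S.Finite →
        S⁻¹ = S → Subgroup.closure S = ⊤ → Factors C r K →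
          Group.IsVirtuallyNilpotent G ∨ c / L r K ≤ rho S) := by
  constructor
  · intro G _ S C _ r K hfin hsym hgen ⟨h1, h2, h3⟩
    refine ⟨H746UG.tendsto_rho S, ?_⟩
    by_cases hv : Group.IsVirtuallyNilpotent G
    · exact Or.inl hv
    right
    have hC := (Subgroup.isNilpotent_iff_lowerCentralSeries _).1 h1
    have hκ : H342.LD.GenBd C (r * K) := H342.LD.GenBd_rank h3 h2
    constructor
    · exact bound_of (L_pos r K)
        ((H342.LD.thmX C hC hfin hgen hsym hκ r h2).resolve_right hv)
    · intro h4
      exact bound_of (L'_pos r K)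
        ((H342.LD.exc C hC hfin hgen hsym h4 hκ r h2).resolve_right hv)
  · intro c hc hgap G _ S C _ r K hfin hsym hgen ⟨h1, h2, h3⟩
    by_cases hv : Group.IsVirtuallyNilpotent G
    · exact Or.inl hv
    right
    have hC := (Subgroup.isNilpotent_iff_lowerCentralSeries _).1 h1
    have hκ : H342.LD.GenBd C (r * K) := H342.LD.GenBd_rank h3 h2
    have h := (H342.LD.thmX C hC hfin hgen hsym hκ r h2).resolve_right hv
    have hL : (0 : ℝ) < L r K := by exact_mod_cast L_pos r K
    rcases H342.LD.out (L_pos r K) h with h1 | ⟨x, h1, _, h3, _⟩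
    · exact (div_le_div_of_nonneg_right hc hL.le).trans h1.2
    · have h5 : c ≤ H746UG.eta x := H342.LD.out_gap hgap h1.1 h1.2.2.2
      exact (div_le_div_of_nonneg_right h5 hL.le).trans h3

end Pool.Agent.Results.MP_d69e80_al.DerivedFactorGenerators
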