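import Pool.Agent.H342.LD.Out
import Pool.Graph.R_pool_sql_team_seeded_63374d34.N600.L3.Main

/-!
# Derived length three: a bound that is linear in the number of generators of `G'/G''`

Let `S` be a finite symmetric generating set of a group `G`, and `C ⊇ G''` a nilpotent normal
subgroup (for instance `G''' = 1` and `C = G''`).  If `G'` is not virtually nilpotent then it is known
(library) that `ρ_S ≥ log 2 / 88` or `ρ_S ≥ min (1, log M(x)) / 704` for an algebraic unit `x`, not a
root of unity.  Here we treat the groups with `G'` virtually nilpotent: if `G'C / C` can be generated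
by `K` elements, or if `G / C` is nilpotent of class at most `K + 2`, then either `G` is virtually
nilpotent or `ρ_S ≥ η(x) / (8 K + 24)` where `η(x)` is the growth rate of the number of digit sums of
`x`.  No bound on the rank of `C` is needed.

Idea of the proof.  By the theorem of Cayley and Hamilton all the conjugates `w c w⁻¹` of `c ∈ G'` by
words `w` in some elements are, modulo `C`, in the group generated by those with `w` of length at
most `K`.  In a suitable quotient of `C / C'` on which `G` acts, `G'` acts through a finite abelian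
group.  If `X` has length at most `K + 3` (a generator or a short commutator) and an eigenvalue that
is not a root of unity, then a commutator `c` of `X` with a generator either commutes with the
conjugates by words of length at most `K`, so with all of its conjugates `X ^ i c X ^ (-i)`, and has a
fixed point in common with them, which leads to digit sums; or the commutator of two of these is a
nontrivial element of `C` of length linear in `K`, and its conjugates by `X` commute.
-/

set_option autoImplicit false

namespace Pool.Agent.Results.MP_d69e80_al.DerivedLengthThreeGenerators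

open Filter Topology Polynomial
open Pool.Agent
open scoped Pointwise commutatorElement

universe u

/-- The exponential growth rate `ρ_S = lim (1/n) log |S ^ n|`, where `S ^ n` is the set of all
products of `n` elements of `S` (pointwise power of sets). -/
noncomputable def rho {G : Type*} [Group G] (S : Set G) : ℝ :=
  limUnder atTop (fun n : ℕ => Real.log (Nat.card ↥(S ^ n)) / n)

/-- The set of all sums `∑ ε_i x ^ i` over `0 ≤ i < n` with digits `ε_i ∈ {0, 1}`. -/
def digitSums (x : ℂ) (n : ℕ) : Set ℂ :=
  {z | ∃ ε : Fin n → Bool, z = ∑ i : Fin n, if ε i then x ^ (i : ℕ) else 0}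

/-- The growth rate `η(x) = lim (1/n) log |digitSums x n|`. -/
noncomputable def eta (x : ℂ) : ℝ :=
  limUnder atTop (fun n : ℕ => Real.log (Nat.card ↥(digitSums x n)) / n)

/-- The Mahler measure of (the minimal polynomial over `ℤ` of) an algebraic integer. -/
noncomputable def mahler (x : ℂ) : ℝ := ((minpoly ℤ x).map (Int.castRingHom ℂ)).mahlerMeasure

/-- `x` is an algebraic unit and not a root of unity. -/
def UnitNotRoot (x : ℂ) : Prop :=
  x ≠ 0 ∧ IsIntegral ℤ x ∧ IsIntegral ℤ x⁻¹ ∧ ∀ m > 0, x ^ m ≠ 1

/-- `G'C / C` can be generated by `K` elements. -/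
def Generated {G : Type*} [Group G] (C : Subgroup G) (K : ℕ) : Prop :=
  ∃ F : Fin K → G, Subgroup.closure (Set.range F) ⊔ C = commutator G ⊔ C

/-- `G / C` is nilpotent of class at most `k`. -/
def ClassLE {G : Type*} [Group G] (C : Subgroup G) (k : ℕ) : Prop :=
  (⊤ : Subgroup G).lowerCentralSeries k ≤ C

lemma vn_top {G : Type u} [Group G]
    (h : Group.IsVirtuallyNilpotent (commutator (⊤ : Subgroup G))) :
    Group.IsVirtuallyNilpotent (commutator G) := by
  have e : (commutator (⊤ : Subgroup G)).map (Subgroup.topEquiv (G := G)).toMonoidHom =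
      commutator G := by
    rw [commutator_def, commutator_def, Subgroup.map_commutator]
    congr 1 <;> exact Subgroup.map_top_of_surjective _ (Subgroup.topEquiv (G := G)).surjective
  rw [← e]
  exact Y552.CP.vn_of_surj ((Subgroup.topEquiv (G := G)).toMonoidHom.subgroupMap_surjective _) h

lemma nil_top {G : Type u} [Group G] (h : Group.IsNilpotent (derivedSeries G 2)) :
    Group.IsNilpotent (derivedSeries (⊤ : Subgroup G) 2) := by
  have e : (derivedSeries G 2).map (Subgroup.topEquiv (G := G)).symm.toMonoidHom =
      derivedSeries (⊤ : Subgroup G) 2 :=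
    map_derivedSeries_eq (Subgroup.topEquiv (G := G)).symm.surjective 2
  rw [← e]
  exact Group.nilpotent_of_surjective _
    ((Subgroup.topEquiv (G := G)).symm.toMonoidHom.subgroupMap_surjective _)

/-- The group of the automorphisms of `G''` induced by `G'` can be generated by `K` elements: there
are `F 0, ..., F (K - 1) ∈ G'` such that every element of `G'` acts on `G''` by conjugation like an
element of the group generated by the `F i`. -/
def InducedGenerated (G : Type*) [Group G] (K : ℕ) : Prop :=
  ∃ F : Fin K → G, (∀ i, F i ∈ commutator G) ∧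
    ∀ g ∈ commutator G, ∃ h ∈ Subgroup.closure (Set.range F),
      ∀ a ∈ derivedSeries G 2, g * a * g⁻¹ = h * a * h⁻¹

/-- The growth alternative, with parameter `K`: `G` is virtually nilpotent, or
(1) `G'` is not virtually nilpotent, and `ρ_S ≥ log 2 / 88` or `ρ_S ≥ min (1, log M(x)) / 704` for an
algebraic unit `x` which is not a root of unity, or
(2) `G'` is virtually nilpotent, and with `L = 8 K + 24` we have `|S ^ n| ^ L ≥ 2 ^ n` for all `n` and
`ρ_S ≥ log 2 / L`, or `|S ^ n| ^ L ≥ |digitSums x n|` for all `n` and `ρ_S ≥ η(x) / L` and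
`ρ_S ≥ min (1, log M(x)) / (8 L)` for an algebraic unit `x` which is not a root of unity. -/
def Alternative {G : Type*} [Group G] (S : Set G) (K : ℕ) : Prop :=
  Group.IsVirtuallyNilpotent G ∨
    (¬ Group.IsVirtuallyNilpotent (commutator G) ∧
      (Real.log 2 / 88 ≤ rho S ∨
        ∃ x : ℂ, UnitNotRoot x ∧ min 1 (Real.log (mahler x)) / 704 ≤ rho S)) ∨
    (Group.IsVirtuallyNilpotent (commutator G) ∧
      (((∀ n : ℕ, 2 ^ n ≤ Nat.card ↥(S ^ n) ^ (8 * K + 24)) ∧
          Real.log 2 / (8 * K + 24) ≤ rho S) ∨
        ∃ x : ℂ, UnitNotRoot x ∧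
          (∀ n : ℕ, Nat.card ↥(digitSums x n) ≤ Nat.card ↥(S ^ n) ^ (8 * K + 24)) ∧
          eta x / (8 * K + 24) ≤ rho S ∧
          min 1 (Real.log (mahler x)) / (8 * (8 * K + 24)) ≤ rho S))

/-- the first part of the theorem -/
theorem main {G : Type u} [Group G] (S : Set G) (hfin : S.Finite) (hsym : S⁻¹ = S)
    (hgen : Subgroup.closure S = ⊤) (C : Subgroup G) [C.Normal] (hC : Group.IsNilpotent C)
    (hC2 : derivedSeries G 2 ≤ C) (K : ℕ) (hK : Generated C K ∨ ClassLE C (K + 2)) :
    Alternative S K := by
  by_cases hv : Group.IsVirtuallyNilpotent (commutator G)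
  · have hκ : H342.LD.GenBd C K := by
      rcases hK with ⟨F, hF⟩ | hK
      · have h1 : H342.LD.RankBd C 1 K := by
          intro i h1 h2
          have : i = 1 := by omega
          subst this
          refine ⟨F, ?_⟩
          rw [sup_eq_right.2 hC2, hF, derivedSeries_one]
        simpa using H342.LD.GenBd_rank h1 hC2
      · exact H342.LD.GenBd_class (k := K + 2) (by omega) hK
    rcases H342.LD.exc C ((Subgroup.isNilpotent_iff_lowerCentralSeries _).1 hC) hfin hgen hsym hv hκ
      1 hC2 with h | h
    · refine Or.inr (Or.inr ⟨hv, ?_⟩)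
      have hL : 4 ^ 1 * (2 * K + 6) = 8 * K + 24 := by ring
      rw [hL] at h
      rcases H342.LD.out (by positivity) h with ⟨h1, h2⟩ | ⟨x, h1, h2, h3, h4⟩
      · push_cast at h2
        exact Or.inl ⟨h1, h2⟩
      · push_cast at h3 h4
        exact Or.inr ⟨x, h1, h2, h3, h4.trans h3⟩
    · exact Or.inl h
  · obtain ⟨c, hc, h⟩ := N600.L3.final.{u}
    have hG'' : Group.IsNilpotent (derivedSeries G 2) := by
      obtain ⟨n, hn⟩ := (Subgroup.isNilpotent_iff_lowerCentralSeries _).1 hC
      refine (Subgroup.isNilpotent_iff_lowerCentralSeries _).2 ⟨n, ?_⟩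
      rw [eq_bot_iff, ← hn]
      exact Subgroup.lowerCentralSeries_mono n hC2
    rcases h G S ⊤ 1 hfin hsym hgen (by rw [Subgroup.index_top]; exact one_ne_zero)
      (by rw [Subgroup.index_top]) with ⟨_, _, h3⟩ | ⟨h3, _⟩
    · exact absurd (vn_top (h3 (nil_top hG''))) hv
    · refine Or.inr (Or.inl ⟨hv, ?_⟩)
      norm_num at h3
      rcases h3 with h3 | ⟨x, h4, h5⟩
      · exact Or.inl h3
      · exact Or.inr ⟨x, h4, h5.2⟩

/-- the centralizer of `G''` in `G'` -/
lemma cent {G : Type u} [Group G] (h3 : derivedSeries G 3 = ⊥) {K : ℕ}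
    (hK : InducedGenerated G K) :
    ∃ C : Subgroup G, C.Normal ∧ Group.IsNilpotent C ∧ derivedSeries G 2 ≤ C ∧ Generated C K := by
  set A := derivedSeries G 2 with hA
  have hAn : A.Normal := inferInstance
  have hcn : (Subgroup.centralizer (A : Set G)).Normal := inferInstance
  have hle : A ≤ commutator G :=
    (derivedSeries_antitone (G := G) (show 1 ≤ 2 by norm_num)).trans (derivedSeries_one G).le
  have hAA : A ≤ Subgroup.centralizer (A : Set G) := by
    rw [← Subgroup.commutator_eq_bot_iff_le_centralizer]
    rw [← h3, derivedSeries_succ]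
  refine ⟨Subgroup.centralizer (A : Set G) ⊓ commutator G, inferInstance, ?_,
    le_inf hAA hle, ?_⟩
  · set C := Subgroup.centralizer (A : Set G) ⊓ commutator G with hCdef
    refine (Subgroup.isNilpotent_iff_lowerCentralSeries C).2 ⟨2, ?_⟩
    have h1 : C.lowerCentralSeries 1 ≤ A := by
      show ⁅C, C⁆ ≤ A
      rw [hA, derivedSeries_succ, derivedSeries_one]
      exact Subgroup.commutator_mono inf_le_right inf_le_right
    have h2 : C.lowerCentralSeries 2 ≤ ⁅A, C⁆ := by
      show ⁅C.lowerCentralSeries 1, C⁆ ≤ _
      exact Subgroup.commutator_mono h1 le_rfl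
    rw [eq_bot_iff]
    refine h2.trans (le_of_eq ?_)
    rw [Subgroup.commutator_comm, Subgroup.commutator_eq_bot_iff_le_centralizer]
    exact inf_le_left
  · obtain ⟨F, hF, hgen⟩ := hK
    refine ⟨F, le_antisymm ?_ ?_⟩
    · refine sup_le ?_ le_sup_right
      rw [Subgroup.closure_le]
      rintro _ ⟨i, rfl⟩
      exact Subgroup.mem_sup_left (hF i)
    · refine sup_le ?_ le_sup_right
      intro g hg
      obtain ⟨h, hh, hgh⟩ := hgen g hg
      have hhG : h ∈ commutator G := by
        have : Subgroup.closure (Set.range F) ≤ commutator G := by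
          rw [Subgroup.closure_le]
          rintro _ ⟨i, rfl⟩
          exact hF i
        exact this hh
      have hc : h⁻¹ * g ∈ Subgroup.centralizer (A : Set G) ⊓ commutator G := by
        rw [Subgroup.mem_inf]
        refine ⟨?_, mul_mem (inv_mem hhG) hg⟩
        rw [Subgroup.mem_centralizer_iff]
        intro a ha
        have h4 := hgh a ha
        have h5 : g * a = h * a * h⁻¹ * g := by rw [← h4]; group
        calc a * (h⁻¹ * g) = h⁻¹ * (h * a * h⁻¹ * g) := by group
          _ = h⁻¹ * (g * a) := by rw [h5]
          _ = h⁻¹ * g * a := by group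
      have : g = h * (h⁻¹ * g) := by group
      rw [this]
      exact mul_mem (Subgroup.mem_sup_left hh) (Subgroup.mem_sup_right hc)

/-- Let `S` be a finite symmetric generating set of a group `G`.  Then `ρ_S` exists.
(a) Let `C ⊇ G''` be a nilpotent normal subgroup such that `G'C / C` can be generated by `K` elements
or `G / C` is nilpotent of class at most `K + 2`.  Then `Alternative S K` holds: `G` is virtually
nilpotent, or `G'` is not virtually nilpotent and the growth rate has an absolute bound (up to a
Mahler measure), or `G'` is virtually nilpotent and the growth rate is at least `log 2 / (8 K + 24)`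
or `η(x) / (8 K + 24)`, and `min (1, log M(x)) / (8 (8 K + 24))`.
(b) If `G''' = 1` then the same holds whenever the group of automorphisms of `G''` induced by `G'` can
be generated by `K` elements. -/
theorem result {G : Type u} [Group G] (S : Set G) (hfin : S.Finite) (hsym : S⁻¹ = S)
    (hgen : Subgroup.closure S = ⊤) :
    Tendsto (fun n : ℕ => Real.log (Nat.card ↥(S ^ n)) / n) atTop (𝓝 (rho S)) ∧
    (∀ (C : Subgroup G) [C.Normal] (K : ℕ), Group.IsNilpotent C → derivedSeries G 2 ≤ C →
      (Generated C K ∨ ClassLE C (K + 2)) → Alternative S K) ∧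
    (derivedSeries G 3 = ⊥ → ∀ K : ℕ, InducedGenerated G K → Alternative S K) := by
  refine ⟨H746UG.tendsto_rho S, fun C _ K hC hC2 hK => main S hfin hsym hgen C hC hC2 K hK, ?_⟩
  intro h3 K hK
  obtain ⟨C, hCn, hC, hC2, hg⟩ := cent h3 hK
  exact main S hfin hsym hgen C hC hC2 K (Or.inl hg)

end Pool.Agent.Results.MP_d69e80_al.DerivedLengthThreeGenerators
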