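import Pool.Agent.H342.LD.Out
import Pool.Graph.R_seed8.TH555.FG.Noeth
import Pool.Graph.R_seed8.Y552.CP.Lin

/-!
# Nilpotent-by-(nilpotent of class at most `k`) groups: a bound that is cubic in `k`

Let `S` be a finite symmetric generating set of a group `G` and `Γ = γ_{k+1}(G)` nilpotent (or
`G / [Γ, Γ]` not virtually nilpotent), `k ≥ 2`.  The known lower bound for the growth rate in terms of
the digit sums of an algebraic unit (the metabelian case) has the factor `1 / 2 ^ (k + 1)`.  Here the
factor is `1 / E k` with `E k ≤ 2 k² (k + 1)`.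

Proof in outline.  If no two elements of `S ^ j`, `j ≤ 3`, generate a free semigroup then `Γ` is
finitely generated (library).  Pass to `G / [Γ, Γ]`, so that `Γ` is abelian, and to a quotient
`E` of `Γ` on which `G` acts and that is just-non-(virtually unipotent); there `G'` acts through a
finite group.  The derived series of `G`, modulo `Γ`, has generators of length `4 ^ i (k + 1)`, because
the conjugates of `c ∈ G'` under the words of length at most `k - 2` generate, modulo `Γ`, the normal
closure of `c`.  If an element `X` of a set of short generators `Y` (of a subgroup that is nilpotent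
modulo the kernel) has an eigenvalue that is not a root of unity, one considers commutators
`c_0 = [Y, X]`, `c_{i+1} = w⁻¹ [c_i, s ^ l c_i s ^ (-l)] w` of short elements.  Either all these
commute with their conjugates under short words, so, by the same bound on conjugates, with all of
them, and then there are digit sums without noise; or one descends in the derived series.
-/

set_option autoImplicit false

namespace Pool.Agent.Results.MP_d69e80_al.NilpotentByClassKCubic

open Filter Topology Polynomial
open Pool.Agent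
open scoped Pointwise commutatorElement

universe u

/-- The exponential growth rate `ρ_S = lim (1/n) log |S ^ n|`, where `S ^ n` is the set of all
products of `n` elements of `S` (pointwise power of sets). -/
noncomputable def rho {G : Type*} [Group G] (S : Set G) : ℝ :=
  limUnder atTop (fun n : ℕ => Real.log (Nat.card ↥(S ^ n)) / n)

/-- The set of all sums `∑ ε_i x ^ i` over `0 ≤ i < n` with digits `ε_i ∈ {0, 1}`. -/
def digitSums (x : ℂ) (n : ℕ) : Set ℂ :=
  {z | ∃ ε : Fin n → Bool, z = ∑ i : Fin n, if ε i then x ^ (i : ℕ) else 0}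

/-- The growth rate `η(x) = lim (1/n) log |digitSums x n|`. -/
noncomputable def eta (x : ℂ) : ℝ :=
  limUnder atTop (fun n : ℕ => Real.log (Nat.card ↥(digitSums x n)) / n)

/-- The Mahler measure of (the minimal polynomial over `ℤ` of) an algebraic integer. -/
noncomputable def mahler (x : ℂ) : ℝ := ((minpoly ℤ x).map (Int.castRingHom ℂ)).mahlerMeasure

/-- `x` is an algebraic unit (`x` and `x⁻¹` are algebraic integers) and not a root of unity. -/
def UnitNotRoot (x : ℂ) : Prop :=
  x ≠ 0 ∧ IsIntegral ℤ x ∧ IsIntegral ℤ x⁻¹ ∧ ∀ m > 0, x ^ m ≠ 1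

/-- The growth gap with constant `c` for metabelian groups (solvability class at most 2). -/
def ClassTwoGap (c : ℝ) : Prop :=
  ∀ (G : Type) [Group G] (S : Set G), S.Finite → Subgroup.closure S = ⊤ →
    derivedSeries G 2 = ⊥ → Group.IsVirtuallyNilpotent G ∨ c ≤ rho S

/-- The term `γ_{k+1}(G)` of the lower central series (so `k = 1` gives `G'`). -/
abbrev gamma (G : Type*) [Group G] (k : ℕ) : Subgroup G := (⊤ : Subgroup G).lowerCentralSeries k

/-- The class of groups, for `k`: with `Γ = γ_{k+1}(G)`, either `Γ` is nilpotent or `G / [Γ, Γ]` is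
not virtually nilpotent. -/
def InClass (k : ℕ) (G : Type*) [Group G] : Prop :=
  Group.IsNilpotent (gamma G k) ∨ ¬ Group.IsVirtuallyNilpotent (G ⧸ ⁅gamma G k, gamma G k⁆)

/-- The growth gap with constant `c` for the groups in the class for `k`, for symmetric generating
sets. -/
def SymClassKGap (k : ℕ) (c : ℝ) : Prop :=
  ∀ (G : Type) [Group G] (S : Set G), S.Finite → S⁻¹ = S → Subgroup.closure S = ⊤ →
    InClass k G → Group.IsVirtuallyNilpotent G ∨ c ≤ rho S

/-- The exponent. -/
def E (k : ℕ) : ℕ := 4 ^ Nat.log 2 k * (2 * k + 2)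

lemma E_pos (k : ℕ) : 0 < E k := by unfold E; positivity

lemma E_le {k : ℕ} (hk : 2 ≤ k) : E k ≤ 2 * k ^ 2 * (k + 1) := by
  have h1 : 2 ^ Nat.log 2 k ≤ k := Nat.pow_log_le_self 2 (by omega)
  have h2 : 4 ^ Nat.log 2 k ≤ k ^ 2 := by
    calc 4 ^ Nat.log 2 k = (2 ^ Nat.log 2 k) ^ 2 := by
          rw [← pow_mul, mul_comm, pow_mul]; norm_num
      _ ≤ k ^ 2 := Nat.pow_le_pow_left h1 2
  unfold E
  nlinarith

/-- the main case -/
lemma dig {k : ℕ} (hk : 2 ≤ k) {G : Type u} [Group G] {S : Set G} (hfin : S.Finite)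
    (hsym : S⁻¹ = S) (hgen : Subgroup.closure S = ⊤) :
    H785R3.GrowthA.Dig S (E k) ∨
      (Group.IsVirtuallyNilpotent (G ⧸ ⁅gamma G k, gamma G k⁆) ∧
        (Group.IsNilpotent (gamma G k) → Group.IsVirtuallyNilpotent G)) := by
  classical
  have hE : E k = 4 ^ Nat.log 2 k * (2 * (k - 2) + 6) := by
    unfold E
    congr 1
    omega
  have hlog : k ≤ 2 ^ (Nat.log 2 k + 1) - 1 := by
    have := Nat.lt_pow_succ_log_self (b := 2) (by norm_num) k
    omega
  by_cases hNF : H785R3.GrowthA.NoFree S 3
  swap
  · left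
    have h1 := TH555.FG.two_pow_of_pair hfin hNF
    refine H342.LD.Dig_of_two_pow fun n => (h1 n).trans ?_
    have hne : S.Nonempty := by
      rw [Set.nonempty_iff_ne_empty]
      intro h0
      have := h1 1
      rw [h0, pow_one] at this
      simp at this
    have h2 : 0 < Nat.card ↥(S ^ n) := by
      have : Finite ↥(S ^ n) := H746UG.finite_pow S hfin n
      have : Nonempty ↥(S ^ n) := (hne.pow).to_subtype
      exact Nat.card_pos
    refine Nat.pow_le_pow_right h2 ?_
    have : 1 ≤ 4 ^ Nat.log 2 k := Nat.one_le_pow _ _ (by norm_num)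
    unfold E
    nlinarith
  have hfg : (gamma G k).FG := TH555.FG.gam_fg hfin hgen hNF k
  have hder : ∀ (X : Type u) [Group X], derivedSeries X (Nat.log 2 k + 1) ≤ gamma X k := by
    intro X _
    refine (H342.LD.der_le (Nat.log 2 k + 1)).trans ?_
    exact Subgroup.lowerCentralSeries_antitone _ hlog
  by_cases hnil : Group.IsNilpotent (gamma G k)
  · rcases H342.LD.poly (gamma G k) hnil hfin hgen hsym hfg (k := k) (by omega) le_rfl
      (H342.LD.GenBd_class (by omega) le_rfl) (Nat.log 2 k) (hder G) with h | h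
    · left
      rwa [hE]
    · exact Or.inr ⟨Y552.CP.vn_of_surj (QuotientGroup.mk'_surjective _) h, fun _ => h⟩
  · set D := ⁅gamma G k, gamma G k⁆ with hD
    have hsurj := QuotientGroup.mk'_surjective D
    have hmap : gamma (G ⧸ D) k = (gamma G k).map (QuotientGroup.mk' D) :=
      H785R3.GrowthA.gam_map hsurj k
    have hfg' : (gamma (G ⧸ D) k).FG := by
      rw [hmap]
      obtain ⟨T, hT⟩ := hfg
      exact ⟨T.image (QuotientGroup.mk' D), by
        rw [Finset.coe_image, ← MonoidHom.map_closure, hT]⟩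
    have hnil' : Group.IsNilpotent (gamma (G ⧸ D) k) := by
      rw [Subgroup.isNilpotent_iff_lowerCentralSeries]
      refine ⟨1, ?_⟩
      show ⁅gamma (G ⧸ D) k, gamma (G ⧸ D) k⁆ = ⊥
      rw [hmap, ← Subgroup.map_commutator, Subgroup.map_eq_bot_iff, QuotientGroup.ker_mk']
    have hgen' : Subgroup.closure (QuotientGroup.mk' D '' S) = ⊤ := by
      rw [← MonoidHom.map_closure, hgen, ← MonoidHom.range_eq_map]
      exact MonoidHom.range_eq_top.2 hsurj
    have hsym' : (QuotientGroup.mk' D '' S)⁻¹ = QuotientGroup.mk' D '' S := by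
      ext x
      rw [Set.mem_inv]
      constructor
      · rintro ⟨y, hy, he⟩
        refine ⟨y⁻¹, ?_, by rw [map_inv, he, inv_inv]⟩
        rw [← hsym]; simpa using hy
      · rintro ⟨y, hy, rfl⟩
        refine ⟨y⁻¹, ?_, by rw [map_inv]⟩
        rw [← hsym]; simpa using hy
    rcases H342.LD.poly (gamma (G ⧸ D) k) hnil' (hfin.image _) hgen' hsym' hfg' (k := k)
      (by omega) le_rfl (H342.LD.GenBd_class (by omega) le_rfl) (Nat.log 2 k) (hder _) with h | h
    · left
      rw [hE]
      exact H785R3.GrowthA.Dig_of_map _ hfin h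
    · exact Or.inr ⟨h, fun h' => absurd h' hnil⟩

/-- (1) Let `k ≥ 2`.  Then `E k ≤ 2 k² (k + 1)`.  Let `S` be a finite symmetric generating set of a
group `G` and let `Γ = γ_{k+1}(G)`.  Then `ρ_S` exists and one of the following holds:
`|S ^ n| ^ (E k) ≥ 2 ^ n` for all `n` and `ρ_S ≥ (log 2) / E k`; or there is an algebraic unit `x`, not
a root of unity, with `|S ^ n| ^ (E k) ≥ |digitSums x n|` for all `n`, `ρ_S ≥ η(x) / E k` and
`ρ_S ≥ min (1, log M(x)) / (8 E k)`; or `G / [Γ, Γ]` is virtually nilpotent (and `G` is virtually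
nilpotent if `Γ` is nilpotent).
(2) For `c ≤ log 2` and `k ≥ 2`, a gap `c` for metabelian groups gives the gap `c / E k`, and so the gap
`c / (2 k² (k + 1))` if `c ≥ 0`, for all groups in the class for `k`, in particular for all `G` with
`γ_{k+1}(G)` nilpotent, and all symmetric generating sets. -/
theorem result :
    (∀ k : ℕ, 2 ≤ k → E k ≤ 2 * k ^ 2 * (k + 1) ∧
      ∀ (G : Type u) [Group G] (S : Set G), S.Finite → S⁻¹ = S → Subgroup.closure S = ⊤ →
        Tendsto (fun n : ℕ => Real.log (Nat.card ↥(S ^ n)) / n) atTop (𝓝 (rho S)) ∧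
        (((∀ n : ℕ, 2 ^ n ≤ Nat.card ↥(S ^ n) ^ E k) ∧ Real.log 2 / E k ≤ rho S) ∨
          (∃ x : ℂ, UnitNotRoot x ∧
            (∀ n : ℕ, Nat.card ↥(digitSums x n) ≤ Nat.card ↥(S ^ n) ^ E k) ∧
            eta x / E k ≤ rho S ∧ min 1 (Real.log (mahler x)) / (8 * E k) ≤ rho S) ∨
          (Group.IsVirtuallyNilpotent (G ⧸ ⁅gamma G k, gamma G k⁆) ∧
            (Group.IsNilpotent (gamma G k) → Group.IsVirtuallyNilpotent G)))) ∧
    (∀ (k : ℕ) (c : ℝ), 2 ≤ k → c ≤ Real.log 2 → ClassTwoGap c →
      SymClassKGap k (c / E k) ∧ (0 ≤ c → SymClassKGap k (c / (2 * k ^ 2 * (k + 1))))) := by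
  constructor
  · intro k hk
    refine ⟨E_le hk, ?_⟩
    intro G _ S hfin hsym hgen
    refine ⟨H746UG.tendsto_rho S, ?_⟩
    rcases dig hk hfin hsym hgen with h | h
    · rcases H342.LD.out (E_pos k) h with h1 | ⟨x, h1, h2, h3, h4⟩
      · exact Or.inl h1
      · exact Or.inr (Or.inl ⟨x, h1, h2, h3, h4.trans h3⟩)
    · exact Or.inr (Or.inr h)
  · intro k c hk hc hgap
    have key : SymClassKGap k (c / E k) := by
      intro G _ S hfin hsym hgen hcl
      by_cases hv : Group.IsVirtuallyNilpotent G
      · exact Or.inl hv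
      right
      have hE : (0 : ℝ) < E k := by exact_mod_cast E_pos k
      rcases dig hk hfin hsym hgen with h | ⟨h1, h2⟩
      · rcases H342.LD.out (E_pos k) h with h1 | ⟨x, h1, h2, h3, h4⟩
        · exact (div_le_div_of_nonneg_right hc hE.le).trans h1.2
        · have h5 : c ≤ H746UG.eta x := H342.LD.out_gap hgap h1.1 h1.2.2.2
          exact (div_le_div_of_nonneg_right h5 hE.le).trans h3
      · rcases hcl with h3 | h3
        · exact absurd (h2 h3) hv
        · exact absurd h1 h3
    refine ⟨key, fun hc0 G _ S hfin hsym hgen hcl => ?_⟩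
    refine (key G S hfin hsym hgen hcl).imp id (fun h => le_trans ?_ h)
    have h1 : (E k : ℝ) ≤ 2 * k ^ 2 * (k + 1) := by exact_mod_cast E_le hk
    have hE : (0 : ℝ) < E k := by exact_mod_cast E_pos k
    exact div_le_div_of_nonneg_left hc0 hE h1

end Pool.Agent.Results.MP_d69e80_al.NilpotentByClassKCubic
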